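import Pool.Agent.Q91.PT.Stm3
import Pool.Agent.H739K.AREA

/-!
# Project PT (helper91): insertions of a bump change the flippable corners little
-/

set_option autoImplicit false

namespace Pool.Agent.Q166.PT.INS

open Finset Pool.Agent.H976R2 Pool.Agent.H976R2.Lip Pool.Agent.H739K Pool.Agent.H924P
open Pool.Agent.Q91.PT
open scoped Classical

noncomputable section

theorem vis_iff (w : List Dir) (p : ℤ × ℤ) : vis w p ↔ ∃ j, j ≤ w.length ∧ PP w j = p := by
  unfold vis PP
  constructor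
  · rintro ⟨a, b, rfl, h1, h2⟩
    refine ⟨a.length, by simp, ?_⟩
    rw [List.take_left']
    · rw [h1, h2]
    · rfl
  · rintro ⟨j, _, rfl⟩
    exact ⟨w.take j, w.drop j, (List.take_append_drop j w).symm, rfl, rfl⟩

theorem saw_iff_PP (w : List Dir) : Saw w ↔
    ∀ j k, j ≤ w.length → k ≤ w.length → PP w j = PP w k → j = k := by
  constructor
  · intro h j k hj hk hjk
    exact PP_inj h hj hk hjk
  · intro h
    rw [Pool.Agent.H976R2.saw_iff_pos]
    intro a b c d h1 h2 hX hY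
    have e1 : w.take a.length = a := by rw [h1, List.take_left']; rfl
    have e2 : w.take c.length = c := by rw [h2, List.take_left']; rfl
    have h3 := h a.length c.length (by rw [h1]; simp) (by rw [h2]; simp) (by
      unfold PP
      rw [e1, e2, hX, hY])
    rw [← e1, ← e2, h3]

/-- the vertex opposite to the corner -/
def uo (w : List Dir) (k : ℕ) : ℤ × ℤ := PP w (k - 1) + dv (lt w k)

theorem split2 (w : List Dir) (k : ℕ) (h1 : 1 ≤ k) (hk : k < w.length) :
    w = w.take (k - 1) ++ lt w (k - 1) :: lt w k :: w.drop (k + 1) := by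
  have a1 := split_at w (k - 1) (by omega)
  have a2 : w.drop (k - 1 + 1) = lt w k :: w.drop (k + 1) := by
    rw [Nat.sub_add_cancel h1]
    have h3 : lt w k = w[k] := by
      unfold lt
      rw [List.getD_eq_getElem?_getD, List.getElem?_eq_getElem hk]
      rfl
    rw [h3]
    exact List.drop_eq_getElem_cons hk
  rw [a2] at a1
  exact a1

theorem sw_length (w : List Dir) (k : ℕ) (h1 : 1 ≤ k) (hk : k < w.length) :
    (Pool.Agent.Q91.PT.sw w k).length = w.length := by
  conv_rhs => rw [split2 w k h1 hk]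
  unfold Pool.Agent.Q91.PT.sw
  simp

theorem PP_sw_ne (w : List Dir) (k j : ℕ) (h1 : 1 ≤ k) (hk : k < w.length) (hj : j ≠ k) :
    PP (Pool.Agent.Q91.PT.sw w k) j = PP w j := by
  have hl : (w.take (k - 1)).length = k - 1 := by rw [List.length_take]; omega
  conv_rhs => rw [split2 w k h1 hk]
  unfold Pool.Agent.Q91.PT.sw PP
  rw [List.take_append, List.take_append, hl]
  rcases lt_or_gt_of_ne hj with h | h
  · have : j - (k - 1) = 0 := by omega
    rw [this]
    simp
  · obtain ⟨m, hm⟩ : ∃ m, j - (k - 1) = m + 2 := ⟨j - (k - 1) - 2, by omega⟩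
    rw [hm]
    simp only [List.take_succ_cons, wX_append, wY_append, wX_cons, wY_cons]
    ext
    · simp only
      ring
    · simp only
      ring

theorem PP_sw_self (w : List Dir) (k : ℕ) (h1 : 1 ≤ k) (hk : k < w.length) :
    PP (Pool.Agent.Q91.PT.sw w k) k = uo w k := by
  have hl : (w.take (k - 1)).length = k - 1 := by rw [List.length_take]; omega
  unfold Pool.Agent.Q91.PT.sw uo PP dv
  rw [List.take_append, hl]
  have : k - (k - 1) = 1 := by omega
  rw [this, List.take_take, Nat.min_eq_right (by omega)]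
  simp

theorem corner {w : List Dir} {k : ℕ} (h1 : 1 ≤ k) (hk : k < w.length)
    (hp : perp (lt w (k - 1)) (lt w k)) :
    ((PP w k).1 + (uo w k).1 = 2 * (cl w k).1 + 1 ∧ (PP w k).2 + (uo w k).2 = 2 * (cl w k).2 + 1) ∧
    ((cl w k).1 ≤ (uo w k).1 ∧ (uo w k).1 ≤ (cl w k).1 + 1) ∧
    ((cl w k).2 ≤ (uo w k).2 ∧ (uo w k).2 ≤ (cl w k).2 + 1) := by
  have a1 : PP w k = PP w (k - 1) + dv (lt w (k - 1)) := by
    have := PP_succ w (k - 1) (by omega)
    rwa [Nat.sub_add_cancel h1] at this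
  have a2 := PP_succ w k hk
  unfold uo Pool.Agent.Q91.PT.cl
  rw [a2, a1]
  generalize lt w (k - 1) = a at *
  generalize lt w k = b at *
  generalize PP w (k - 1) = P at *
  obtain ⟨x, y⟩ := P
  cases a <;> cases b <;> simp [perp, dx, dy] at hp <;>
    simp only [dv, dx, dy, Prod.mk_add_mk] <;> omega

theorem mem_Fl {w : List Dir} (hw : Saw w) (hfla : S_fla) (k : ℕ) : k ∈ Fl w ↔
    (k < w.length ∧ 1 ≤ k ∧ perp (lt w (k - 1)) (lt w k) ∧ Even (cl w k).1 ∧ Even (cl w k).2 ∧
      ¬ vis w (uo w k)) := by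
  constructor
  · intro h
    have h2 := (hfla w k hw h).2.2.2.2.1
    unfold Fl at h
    rw [mem_filter, mem_range] at h
    refine ⟨h.1, h.2.1, h.2.2.1, h.2.2.2.1, h.2.2.2.2.1, ?_⟩
    rw [vis_iff]
    rintro ⟨j, hj, hj2⟩
    exact h2 j hj hj2
  · rintro ⟨h1, h2, h3, h4, h5, h6⟩
    unfold Fl
    rw [mem_filter, mem_range]
    refine ⟨h1, h2, h3, h4, h5, ?_⟩
    rw [saw_iff_PP, sw_length w k h2 h1]
    rw [vis_iff] at h6
    push Not at h6
    intro j l hj hl hjl
    by_cases ej : j = k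
    · by_cases el : l = k
      · rw [ej, el]
      · exfalso
        rw [ej, PP_sw_self w k h2 h1, PP_sw_ne w k l h2 h1 el] at hjl
        exact h6 l hl hjl.symm
    · by_cases el : l = k
      · exfalso
        rw [el, PP_sw_self w k h2 h1, PP_sw_ne w k j h2 h1 ej] at hjl
        exact h6 j hj hjl
      · rw [PP_sw_ne w k j h2 h1 ej, PP_sw_ne w k l h2 h1 el] at hjl
        exact PP_inj hw hj hl hjl

theorem uo_inj {w : List Dir} (hw : Saw w) (hfla : S_fla) {k l : ℕ} (hk : k ∈ Fl w) (hl : l ∈ Fl w)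
    (h : uo w k = uo w l) : k = l := by
  rw [mem_Fl hw hfla] at hk hl
  obtain ⟨k1, k2, k3, ⟨a, ha⟩, ⟨b, hb⟩, -⟩ := hk
  obtain ⟨l1, l2, l3, ⟨a', ha'⟩, ⟨b', hb'⟩, -⟩ := hl
  have c1 := corner k2 k1 k3
  have c2 := corner l2 l1 l3
  rw [h] at c1
  apply PP_inj hw k1.le l1.le
  ext <;> omega

theorem cl_four {w : List Dir} (hw : Saw w) (hfla : S_fla) (c : ℤ × ℤ) :
    ((Fl w).filter (fun k => cl w k = c)).card ≤ 4 := by
  have h4 : (({c, (c.1 + 1, c.2), (c.1, c.2 + 1), (c.1 + 1, c.2 + 1)} : Finset (ℤ × ℤ))).card ≤ 4 :=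
    card_le_four
  refine le_trans ?_ h4
  apply card_le_card_of_injOn (fun k => PP w k)
  · intro k hk
    rw [mem_coe, mem_filter, mem_Fl hw hfla] at hk
    obtain ⟨⟨k1, k2, k3, -⟩, k4⟩ := hk
    have c1 := corner k2 k1 k3
    rw [k4] at c1
    rw [mem_coe, mem_insert, mem_insert, mem_insert, mem_singleton]
    simp only [Prod.ext_iff]
    omega
  · intro k hk l hl hkl
    rw [mem_coe, mem_filter, mem_Fl hw hfla] at hk hl
    exact PP_inj hw hk.1.1.le hl.1.1.le hkl

/-- the corners before the insertion -/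
theorem before {w : List Dir} {i : ℕ} {e : Dir} (hi : i < w.length) {k : ℕ} (hk : k < i) :
    lt (ins w i e) (k - 1) = lt w (k - 1) ∧ lt (ins w i e) k = lt w k ∧
    cl (ins w i e) k = cl w k ∧ uo (ins w i e) k = uo w k := by
  have a1 := lt_ins_lt w i (k - 1) e hi (by omega)
  have a2 := lt_ins_lt w i k e hi hk
  have a3 := PP_ins_le w i (k - 1) e hi (by omega)
  have a4 := PP_ins_le w i (k + 1) e hi (by omega)
  refine ⟨a1, a2, ?_, ?_⟩
  · unfold Pool.Agent.Q91.PT.cl
    rw [a3, a4]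
  · unfold uo
    rw [a3, a2]

/-- the corners after the insertion -/
theorem after {w : List Dir} {i : ℕ} {e : Dir} (hi : i < w.length) {k : ℕ} (hk : i + 2 ≤ k) :
    lt (ins w i e) (k + 2 - 1) = lt w (k - 1) ∧ lt (ins w i e) (k + 2) = lt w k ∧
    cl (ins w i e) (k + 2) = cl w k ∧ uo (ins w i e) (k + 2) = uo w k := by
  have e1 : k + 2 - 1 = (k - 1) + 2 := by omega
  have e2 : k + 2 + 1 = (k + 1) + 2 := by omega
  have a1 := lt_ins_gt w i (k - 1) e hi (by omega)
  have a2 := lt_ins_gt w i k e hi (by omega)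
  have a3 := PP_ins_gt w i (k - 1) e hi (by omega)
  have a4 := PP_ins_gt w i (k + 1) e hi (by omega)
  refine ⟨by rw [e1, a1], a2, ?_, ?_⟩
  · unfold Pool.Agent.Q91.PT.cl
    rw [e1, e2, a3, a4]
  · unfold uo
    rw [e1, a3, a2]

/-- the common corners -/
theorem common {w : List Dir} (hw : Saw w) (hfla : S_fla) {i : ℕ} {e : Dir} (hi : i < w.length)
    (hw' : Saw (ins w i e)) {k : ℕ} (hk : k < i ∨ i + 2 ≤ k) :
    (sh i k ∈ Fl (ins w i e) ↔ k ∈ Fl w ∧ uo w k ≠ PP w i + dv e ∧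
      uo w k ≠ PP w i + dv e + dv (lt w i)) ∧ cl (ins w i e) (sh i k) = cl w k := by
  rw [mem_Fl hw' hfla, mem_Fl hw hfla, ins_length w i e hi]
  rcases hk with hk | hk
  · have hs : sh i k = k := by unfold sh; rw [if_pos hk]
    obtain ⟨a1, a2, a3, a4⟩ := before (e := e) hi hk
    rw [hs, a1, a2, a3, a4, vis_ins w i e hi]
    refine ⟨?_, rfl⟩
    constructor
    · rintro ⟨b1, b2, b3, b4, b5, b6⟩
      push Not at b6
      exact ⟨⟨by omega, b2, b3, b4, b5, b6.1⟩, b6.2.1, b6.2.2⟩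
    · rintro ⟨⟨b1, b2, b3, b4, b5, b6⟩, b7, b8⟩
      refine ⟨by omega, b2, b3, b4, b5, ?_⟩
      push Not
      exact ⟨b6, b7, b8⟩
  · have hs : sh i k = k + 2 := by unfold sh; rw [if_neg (by omega)]
    obtain ⟨a1, a2, a3, a4⟩ := after (e := e) hi hk
    rw [hs, a1, a2, a3, a4, vis_ins w i e hi]
    refine ⟨?_, rfl⟩
    constructor
    · rintro ⟨b1, b2, b3, b4, b5, b6⟩
      push Not at b6
      exact ⟨⟨by omega, by omega, b3, b4, b5, b6.1⟩, b6.2.1, b6.2.2⟩
    · rintro ⟨⟨b1, b2, b3, b4, b5, b6⟩, b7, b8⟩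
      refine ⟨by omega, by omega, b3, b4, b5, ?_⟩
      push Not
      exact ⟨b6, b7, b8⟩

theorem count1 (F F' B : Finset ℕ) (s : ℕ → ℕ) (hs : Function.Injective s)
    (h : ∀ k ∈ F, k ∉ B → s k ∈ F') : F.card ≤ F'.card + B.card := by
  have h1 : F ⊆ (F \ B) ∪ B := by
    intro k hk
    rw [mem_union, mem_sdiff]
    by_cases hb : k ∈ B
    · exact Or.inr hb
    · exact Or.inl ⟨hk, hb⟩
  have h2 : (F \ B).card ≤ F'.card := by
    apply card_le_card_of_injOn s
    · intro k hk
      rw [mem_coe, mem_sdiff] at hk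
      exact h k hk.1 hk.2
    · exact hs.injOn
  calc F.card ≤ ((F \ B) ∪ B).card := card_le_card h1
    _ ≤ (F \ B).card + B.card := card_union_le _ _
    _ ≤ _ := by omega

theorem count2 (F F' R B : Finset ℕ) (s : ℕ → ℕ)
    (h : ∀ k ∈ F', k ∈ R ∨ ∃ j ∈ F ∪ B, s j = k) : F'.card ≤ R.card + (F.card + B.card) := by
  have h1 : F' ⊆ R ∪ (F ∪ B).image s := by
    intro k hk
    rw [mem_union, mem_image]
    exact h k hk
  have a1 : F'.card ≤ (R ∪ (F ∪ B).image s).card := card_le_card h1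
  have a2 : (R ∪ (F ∪ B).image s).card ≤ R.card + ((F ∪ B).image s).card := card_union_le _ _
  have a3 : ((F ∪ B).image s).card ≤ (F ∪ B).card := card_image_le
  have a4 : (F ∪ B).card ≤ F.card + B.card := card_union_le _ _
  omega

theorem t (hfla : S_fla) (harea : S_area) : S_ins := by
  intro w i e h3 hw hsq hadm
  have hA := harea w i e h3 hw hsq hadm
  have hadm' := (mem_adm hw i e).1 hadm
  have hi : i < w.length := hadm'.1
  have hperp := hadm'.2.1
  have hw' : Saw (ins w i e) := by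
    unfold adm at hadm
    rw [mem_filter] at hadm
    exact hadm.2.2
  -- the exceptional cell
  obtain ⟨c0, hc0⟩ : ∃ c0 : ℤ × ℤ, c0 = (min (PP w i).1 ((PP w i).1 + dx e + dx (lt w i)),
      min (PP w i).2 ((PP w i).2 + dy e + dy (lt w i))) := ⟨_, rfl⟩
  have hsame : ∀ c, c ≠ c0 → (ins' (ins w i e) c ↔ ins' w c) := by
    intro c hc
    rw [hc0] at hc
    exact AREAx.encl_same w i e hi hperp c hc
  -- the bad corners
  obtain ⟨B, hB⟩ : ∃ B : Finset ℕ, B = {i, i + 1} ∪
      ((Fl w).filter (fun k => uo w k = PP w i + dv e) ∪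
        (Fl w).filter (fun k => uo w k = PP w i + dv e + dv (lt w i))) := ⟨_, rfl⟩
  have one : ∀ x : ℤ × ℤ, ((Fl w).filter (fun k => uo w k = x)).card ≤ 1 := by
    intro x
    rw [card_le_one]
    intro k hk l hl
    rw [mem_filter] at hk hl
    exact uo_inj hw hfla hk.1 hl.1 (hk.2.trans hl.2.symm)
  have hBc : B.card ≤ 4 := by
    rw [hB]
    have a1 := card_union_le ({i, i + 1} : Finset ℕ)
      ((Fl w).filter (fun k => uo w k = PP w i + dv e) ∪
        (Fl w).filter (fun k => uo w k = PP w i + dv e + dv (lt w i)))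
    have a2 := card_union_le ((Fl w).filter (fun k => uo w k = PP w i + dv e))
      ((Fl w).filter (fun k => uo w k = PP w i + dv e + dv (lt w i)))
    have a3 := one (PP w i + dv e)
    have a4 := one (PP w i + dv e + dv (lt w i))
    have a5 : ({i, i + 1} : Finset ℕ).card ≤ 2 := card_le_two
    omega
  obtain ⟨B', hB'⟩ : ∃ B' : Finset ℕ, B' = (Fl w).filter (fun k => cl w k = c0) := ⟨_, rfl⟩
  have hBc' : B'.card ≤ 4 := by rw [hB']; exact cl_four hw hfla c0
  obtain ⟨R, hR⟩ : ∃ R : Finset ℕ, R = {i, i + 1, i + 2, i + 3} := ⟨_, rfl⟩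
  have hRc : R.card ≤ 4 := by rw [hR]; exact card_le_four
  -- common corners
  have com : ∀ k ∈ Fl w, k ∉ B → (k < i ∨ i + 2 ≤ k) ∧ uo w k ≠ PP w i + dv e ∧
      uo w k ≠ PP w i + dv e + dv (lt w i) := by
    intro k hk hkB
    rw [hB, mem_union, mem_union, mem_filter, mem_filter, mem_insert, mem_singleton] at hkB
    push Not at hkB
    refine ⟨by omega, hkB.2.1 hk, hkB.2.2 hk⟩
  have com' : ∀ k ∈ Fl (ins w i e), k ∉ R → ∃ j, (j < i ∨ i + 2 ≤ j) ∧ sh i j = k := by
    intro k hk hkR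
    rw [hR, mem_insert, mem_insert, mem_insert, mem_singleton] at hkR
    by_cases h : k < i
    · exact ⟨k, Or.inl h, by unfold sh; rw [if_pos h]⟩
    · exact ⟨k - 2, Or.inr (by omega), by unfold sh; rw [if_neg (by omega)]; omega⟩
  have n1 : (Fl w).card ≤ (Fl (ins w i e)).card + B.card := by
    refine count1 _ _ _ (sh i) (sh_inj i) ?_
    intro k hk hkB
    obtain ⟨p1, p2, p3⟩ := com k hk hkB
    exact ((common hw hfla hi hw' p1).1).2 ⟨hk, p2, p3⟩
  have n2 : (Fl (ins w i e)).card ≤ R.card + ((Fl w).card + (∅ : Finset ℕ).card) := by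
    refine count2 _ _ _ _ (sh i) ?_
    intro k hk
    by_cases hkR : k ∈ R
    · exact Or.inl hkR
    · right
      obtain ⟨j, hj, rfl⟩ := com' k hk hkR
      exact ⟨j, mem_union_left _ (((common hw hfla hi hw' hj).1).1 hk).1, rfl⟩
  rw [card_empty] at n2
  have m1 : Dn Fl bb w ≤ Dn Fl bb (ins w i e) + (B ∪ B').card := by
    unfold Dn
    refine count1 _ _ _ (sh i) (sh_inj i) ?_
    intro k hk hkB
    rw [mem_union] at hkB
    push Not at hkB
    rw [mem_filter] at hk ⊢
    obtain ⟨p1, p2, p3⟩ := com k hk.1 hkB.1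
    refine ⟨((common hw hfla hi hw' p1).1).2 ⟨hk.1, p2, p3⟩, ?_⟩
    have hcl : cl w k ≠ c0 := by
      intro h
      apply hkB.2
      rw [hB', mem_filter]
      exact ⟨hk.1, h⟩
    unfold bb
    rw [(common hw hfla hi hw' p1).2]
    exact (hsame _ hcl).2 hk.2
  have m2 : Dn Fl bb (ins w i e) ≤ R.card + (Dn Fl bb w + B'.card) := by
    unfold Dn
    refine count2 _ _ _ _ (sh i) ?_
    intro k hk
    by_cases hkR : k ∈ R
    · exact Or.inl hkR
    · right
      rw [mem_filter] at hk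
      obtain ⟨j, hj, rfl⟩ := com' k hk.1 hkR
      have hjF := (((common hw hfla hi hw' hj).1).1 hk.1).1
      refine ⟨j, ?_, rfl⟩
      rw [mem_union, mem_filter, hB', mem_filter]
      by_cases hcl : cl w j = c0
      · exact Or.inr ⟨hjF, hcl⟩
      · left
        refine ⟨hjF, ?_⟩
        have h5 := hk.2
        unfold bb at h5 ⊢
        rw [(common hw hfla hi hw' hj).2] at h5
        exact (hsame _ hcl).1 h5
  have m3 := card_union_le B B'
  unfold base
  constructor
  · rw [abs_le]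
    constructor <;> omega
  · rw [abs_le]
    constructor <;> omega

end

end Pool.Agent.Q166.PT.INS
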